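import Mathlib

namespace H353R6.Quad

open Matrix

variable {N : ℕ}

section ring
variable {R : Type*} [CommRing R]

/-- the symmetric bilinear map with coefficients `a` -/
def mul (a : Fin (N + 1) × Sym2 (Fin (N + 1)) → R) (x y : Fin (N + 1) → R) : Fin (N + 1) → R :=
  fun k => ∑ i, ∑ j, a (k, s(i, j)) * (x i * y j)

/-- matrix of multiplication by x -/
def Lm (a : Fin (N + 1) × Sym2 (Fin (N + 1)) → R) (x : Fin (N + 1) → R) :
    Matrix (Fin (N + 1)) (Fin (N + 1)) R :=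
  Matrix.of fun k j => ∑ i, a (k, s(i, j)) * x i

/-- trace form -/
def om (a : Fin (N + 1) × Sym2 (Fin (N + 1)) → R) (x : Fin (N + 1) → R) : R := (Lm a x).trace

def w (a : Fin (N + 1) × Sym2 (Fin (N + 1)) → R) : Fin (N + 1) → R :=
  fun j => ∑ k, a (k, s(j, k))

def Qm (a : Fin (N + 1) × Sym2 (Fin (N + 1)) → R) : Matrix (Fin (N + 1)) (Fin (N + 1)) R :=
  Matrix.of fun i j => ∑ l, w a l * a (l, s(i, j))

lemma mul_eq (a : Fin (N + 1) × Sym2 (Fin (N + 1)) → R) (x y : Fin (N + 1) → R) :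
    mul a x y = Lm a x *ᵥ y := by
  funext k
  simp only [mul, Lm, mulVec, dotProduct, of_apply]
  rw [Finset.sum_comm]
  refine Finset.sum_congr rfl fun j _ => ?_
  rw [Finset.sum_mul]
  refine Finset.sum_congr rfl fun i _ => ?_
  ring

lemma mul_comm' (a : Fin (N + 1) × Sym2 (Fin (N + 1)) → R) (x y : Fin (N + 1) → R) :
    mul a x y = mul a y x := by
  funext k
  simp only [mul]
  rw [Finset.sum_comm]
  refine Finset.sum_congr rfl fun j _ => Finset.sum_congr rfl fun i _ => ?_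
  rw [Sym2.eq_swap]; ring

lemma Lm_smul (a : Fin (N + 1) × Sym2 (Fin (N + 1)) → R) (c : R) (x : Fin (N + 1) → R) :
    Lm a (c • x) = c • Lm a x := by
  ext k j
  simp only [Lm, of_apply, Pi.smul_apply, smul_eq_mul, Matrix.smul_apply, Finset.mul_sum]
  exact Finset.sum_congr rfl fun i _ => by ring

lemma mul_smul_left (a : Fin (N + 1) × Sym2 (Fin (N + 1)) → R) (c : R) (x y : Fin (N + 1) → R) :
    mul a (c • x) y = c • mul a x y := by
  rw [mul_eq, Lm_smul, smul_mulVec, ← mul_eq]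

lemma mul_smul_right (a : Fin (N + 1) × Sym2 (Fin (N + 1)) → R) (c : R) (x y : Fin (N + 1) → R) :
    mul a x (c • y) = c • mul a x y := by
  rw [mul_comm', mul_smul_left, mul_comm']

lemma mul_add_right (a : Fin (N + 1) × Sym2 (Fin (N + 1)) → R) (x y z : Fin (N + 1) → R) :
    mul a x (y + z) = mul a x y + mul a x z := by
  rw [mul_eq, mulVec_add, ← mul_eq, ← mul_eq]

lemma mul_add_left (a : Fin (N + 1) × Sym2 (Fin (N + 1)) → R) (x y z : Fin (N + 1) → R) :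
    mul a (x + y) z = mul a x z + mul a y z := by
  rw [mul_comm', mul_add_right, mul_comm' a z, mul_comm' a z]

lemma mul_sum_right (a : Fin (N + 1) × Sym2 (Fin (N + 1)) → R) {ι : Type*} (s : Finset ι)
    (x : Fin (N + 1) → R) (f : ι → Fin (N + 1) → R) :
    mul a x (∑ i ∈ s, f i) = ∑ i ∈ s, mul a x (f i) := by
  rw [mul_eq, mulVec_sum]
  exact Finset.sum_congr rfl fun i _ => (mul_eq a x (f i)).symm

lemma mul_sum_left (a : Fin (N + 1) × Sym2 (Fin (N + 1)) → R) {ι : Type*} (s : Finset ι)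
    (x : Fin (N + 1) → R) (f : ι → Fin (N + 1) → R) :
    mul a (∑ i ∈ s, f i) x = ∑ i ∈ s, mul a (f i) x := by
  rw [mul_comm', mul_sum_right]
  exact Finset.sum_congr rfl fun i _ => mul_comm' a x (f i)

lemma mul_single (a : Fin (N + 1) × Sym2 (Fin (N + 1)) → R) (i j k : Fin (N + 1)) :
    mul a (Pi.single i 1) (Pi.single j 1) k = a (k, s(i, j)) := by
  simp only [mul]
  rw [Finset.sum_eq_single i, Finset.sum_eq_single j]
  · simp
  · intro b _ hb; simp [hb]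
  · simp
  · intro b _ hb; simp [hb]
  · simp

lemma om_eq (a : Fin (N + 1) × Sym2 (Fin (N + 1)) → R) (x : Fin (N + 1) → R) :
    om a x = ∑ j, w a j * x j := by
  simp only [om, Matrix.trace, Lm, Matrix.diag, of_apply, w]
  rw [Finset.sum_comm]
  exact Finset.sum_congr rfl fun i _ => by rw [Finset.sum_mul]

lemma om_smul (a : Fin (N + 1) × Sym2 (Fin (N + 1)) → R) (c : R) (x : Fin (N + 1) → R) :
    om a (c • x) = c * om a x := by
  rw [om, Lm_smul, trace_smul, smul_eq_mul, om]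

lemma om_sum (a : Fin (N + 1) × Sym2 (Fin (N + 1)) → R) {ι : Type*} (s : Finset ι)
    (f : ι → Fin (N + 1) → R) :
    om a (∑ i ∈ s, f i) = ∑ i ∈ s, om a (f i) := by
  simp only [om_eq, Finset.sum_apply, Finset.mul_sum]
  rw [Finset.sum_comm]

lemma om_mul (a : Fin (N + 1) × Sym2 (Fin (N + 1)) → R) (x y : Fin (N + 1) → R) :
    om a (mul a x y) = ∑ j, (Qm a *ᵥ x) j * y j := by
  rw [om_eq]
  simp only [mul, Qm, mulVec, dotProduct, of_apply, Finset.mul_sum, Finset.sum_mul]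
  -- LHS ∑ l ∑ i ∑ j w l * (a * (x i * y j)); RHS ∑ j ∑ i ∑ l w l * a * x i * y j
  rw [Finset.sum_comm]
  conv_lhs => enter [2, i]; rw [Finset.sum_comm]
  rw [Finset.sum_comm]
  refine Finset.sum_congr rfl fun j _ => Finset.sum_congr rfl fun i _ =>
    Finset.sum_congr rfl fun l _ => ?_
  rw [Sym2.eq_swap]; ring

lemma Qm_quad (a : Fin (N + 1) × Sym2 (Fin (N + 1)) → R) (x y : Fin (N + 1) → R) :
    (Qm a *ᵥ x) ⬝ᵥ y = om a (mul a x y) := by
  rw [om_mul]; rfl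

end ring

section field
variable {k : Type*} [Field k]

noncomputable def uu (a : Fin (N + 1) × Sym2 (Fin (N + 1)) → k) : Fin (N + 1) → k :=
  (Qm a)⁻¹ *ᵥ w a

noncomputable def it (a : Fin (N + 1) × Sym2 (Fin (N + 1)) → k) : ℕ → Fin (N + 1) → k
  | 0 => uu a
  | (i + 1) => mul a (uu a) (it a i)

noncomputable def gg (a : Fin (N + 1) × Sym2 (Fin (N + 1)) → k) :
    Matrix (Fin (N + 1)) (Fin (N + 1)) k := Matrix.of fun k i => it a i k

noncomputable def ss (a : Fin (N + 1) × Sym2 (Fin (N + 1)) → k) (l i j : Fin (N + 1)) : k :=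
  ((gg a)⁻¹ *ᵥ mul a (it a i) (it a j)) l

lemma om_uu {a : Fin (N + 1) × Sym2 (Fin (N + 1)) → k} (h : (Qm a).det ≠ 0)
    (y : Fin (N + 1) → k) : om a (mul a (uu a) y) = om a y := by
  rw [om_mul, uu, mulVec_mulVec, mul_nonsing_inv _ (isUnit_iff_ne_zero.2 h), one_mulVec, om_eq]

lemma uu_unique {a : Fin (N + 1) × Sym2 (Fin (N + 1)) → k} (h : (Qm a).det ≠ 0)
    (v : Fin (N + 1) → k) (hv : ∀ y, om a (mul a v y) = om a y) : v = uu a := by
  have : Qm a *ᵥ v = w a := by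
    funext j
    have := hv (Pi.single j 1)
    rw [om_mul, om_eq] at this
    simpa [Pi.single_apply] using this
  rw [uu, ← this, mulVec_mulVec, nonsing_inv_mul _ (isUnit_iff_ne_zero.2 h), one_mulVec]

/-- transformation rule -/
structure Rel (a b : Fin (N + 1) × Sym2 (Fin (N + 1)) → k)
    (h : Matrix (Fin (N + 1)) (Fin (N + 1)) k) (l : k) : Prop where
  hd : h.det ≠ 0
  hl : l ≠ 0
  hm : ∀ x y, mul b (h *ᵥ x) (h *ᵥ y) = l • (h *ᵥ mul a x y)

variable {a b : Fin (N + 1) × Sym2 (Fin (N + 1)) → k}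
  {h : Matrix (Fin (N + 1)) (Fin (N + 1)) k} {l : k}

lemma Rel.om (H : Rel a b h l) (x : Fin (N + 1) → k) :
    H353R6.Quad.om b (h *ᵥ x) = l * H353R6.Quad.om a x := by
  have e : Lm b (h *ᵥ x) * h = l • (h * Lm a x) := by
    refine Matrix.ext_of_mulVec_single ?_ |>.trans rfl
    intro j
    rw [← mulVec_mulVec, ← mul_eq, H.hm, mul_eq, smul_mulVec, mulVec_mulVec]
  have e2 : Lm b (h *ᵥ x) = (l • (h * Lm a x)) * h⁻¹ := by
    rw [← e, Matrix.mul_assoc, mul_nonsing_inv _ (isUnit_iff_ne_zero.2 H.hd), Matrix.mul_one]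
  rw [H353R6.Quad.om, e2, smul_mul, trace_smul, trace_mul_comm, ← Matrix.mul_assoc,
    nonsing_inv_mul _ (isUnit_iff_ne_zero.2 H.hd), Matrix.one_mul, smul_eq_mul,
    H353R6.Quad.om]

lemma Rel.Q (H : Rel a b h l) : hᵀ * Qm b * h = (l ^ 2) • Qm a := by
  have key : ∀ x y, ((hᵀ * Qm b * h) *ᵥ x) ⬝ᵥ y = ((l ^ 2) • Qm a) *ᵥ x ⬝ᵥ y := by
    intro x y
    rw [smul_mulVec, smul_dotProduct, Qm_quad, Matrix.mul_assoc, ← mulVec_mulVec,
      ← mulVec_mulVec, mulVec_transpose, ← dotProduct_mulVec, Qm_quad, H.hm, om_smul, H.om]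
    simp only [smul_eq_mul]; ring
  ext i j
  have := key (Pi.single j 1) (Pi.single i 1)
  simpa [dotProduct_single] using this

lemma Rel.detQ (H : Rel a b h l) (ha : (Qm a).det ≠ 0) : (Qm b).det ≠ 0 := by
  have := congrArg Matrix.det H.Q
  rw [det_mul, det_mul, det_smul] at this
  intro h0
  rw [h0] at this
  simp only [mul_zero, zero_mul] at this
  exact (mul_ne_zero (pow_ne_zero _ (pow_ne_zero _ H.hl)) ha) this.symm

lemma Rel.uu (H : Rel a b h l) (ha : (Qm a).det ≠ 0) :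
    H353R6.Quad.uu b = l⁻¹ • (h *ᵥ H353R6.Quad.uu a) := by
  symm
  refine uu_unique (H.detQ ha) _ fun y => ?_
  obtain ⟨z, rfl⟩ : ∃ z, y = h *ᵥ z := ⟨h⁻¹ *ᵥ y, by
    rw [mulVec_mulVec, mul_nonsing_inv _ (isUnit_iff_ne_zero.2 H.hd), one_mulVec]⟩
  rw [mul_smul_left, H.hm, smul_smul, inv_mul_cancel₀ H.hl, one_smul, H.om, H.om, om_uu ha]

lemma Rel.it (H : Rel a b h l) (ha : (Qm a).det ≠ 0) (i : ℕ) :
    H353R6.Quad.it b i = l⁻¹ • (h *ᵥ H353R6.Quad.it a i) := by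
  induction i with
  | zero => exact H.uu ha
  | succ i ih =>
    rw [H353R6.Quad.it, ih, H.uu ha, mul_smul_left, mul_smul_right, H.hm, H353R6.Quad.it,
      smul_smul l⁻¹ l, inv_mul_cancel₀ H.hl, one_smul]

lemma Rel.gg (H : Rel a b h l) (ha : (Qm a).det ≠ 0) :
    H353R6.Quad.gg b = l⁻¹ • (h * H353R6.Quad.gg a) := by
  ext r i
  simp only [H353R6.Quad.gg, of_apply, H.it ha, Matrix.smul_apply, Pi.smul_apply, Matrix.mul_apply,
    mulVec, dotProduct]

lemma Rel.detg (H : Rel a b h l) (ha : (Qm a).det ≠ 0) (hg : (H353R6.Quad.gg a).det ≠ 0) :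
    (H353R6.Quad.gg b).det ≠ 0 := by
  rw [H.gg ha, det_smul, det_mul]
  exact mul_ne_zero (pow_ne_zero _ (inv_ne_zero H.hl)) (mul_ne_zero H.hd hg)

lemma Rel.ss (H : Rel a b h l) (ha : (Qm a).det ≠ 0) (hg : (H353R6.Quad.gg a).det ≠ 0)
    (r i j : Fin (N + 1)) : H353R6.Quad.ss b r i j = H353R6.Quad.ss a r i j := by
  have e : (H353R6.Quad.gg b) *ᵥ ((H353R6.Quad.gg a)⁻¹ *ᵥ mul a (H353R6.Quad.it a i)
      (H353R6.Quad.it a j)) = mul b (H353R6.Quad.it b i) (H353R6.Quad.it b j) := by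
    rw [H.gg ha, smul_mulVec, ← mulVec_mulVec, mulVec_mulVec _ (H353R6.Quad.gg a),
      mul_nonsing_inv _ (isUnit_iff_ne_zero.2 hg), one_mulVec, H.it ha, H.it ha, mul_smul_left,
      mul_smul_right, H.hm, smul_smul l⁻¹ l, inv_mul_cancel₀ H.hl, one_smul]
  rw [H353R6.Quad.ss, ← e, mulVec_mulVec, nonsing_inv_mul _ (isUnit_iff_ne_zero.2 (H.detg ha hg)),
    one_mulVec, H353R6.Quad.ss]

end field

end H353R6.Quad
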