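import Pool.Agent.H353R6.QA

namespace H353R6.Quad

open Matrix

variable {N : ℕ}

section ring
variable {R : Type*} [CommRing R]

noncomputable def ut (a : Fin (N + 1) × Sym2 (Fin (N + 1)) → R) : Fin (N + 1) → R :=
  (Qm a).adjugate *ᵥ w a

noncomputable def itt (a : Fin (N + 1) × Sym2 (Fin (N + 1)) → R) : ℕ → Fin (N + 1) → R
  | 0 => ut a
  | (i + 1) => mul a (ut a) (itt a i)

noncomputable def gt (a : Fin (N + 1) × Sym2 (Fin (N + 1)) → R) :
    Matrix (Fin (N + 1)) (Fin (N + 1)) R := Matrix.of fun k i => itt a i k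

noncomputable def Pn (a : Fin (N + 1) × Sym2 (Fin (N + 1)) → R) (l i j : Fin (N + 1)) : R :=
  (Qm a).det ^ ((l : ℕ) + 1) * ((gt a).adjugate *ᵥ mul a (itt a i) (itt a j)) l

noncomputable def Qn (a : Fin (N + 1) × Sym2 (Fin (N + 1)) → R) (i j : Fin (N + 1)) : R :=
  (gt a).det * (Qm a).det ^ ((i : ℕ) + 1 + ((j : ℕ) + 1))

/-- the group action (times the square of the determinant) -/
def T (h : Matrix (Fin (N + 1)) (Fin (N + 1)) R) (l : R)
    (a : Fin (N + 1) × Sym2 (Fin (N + 1)) → R) : Fin (N + 1) × Sym2 (Fin (N + 1)) → R :=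
  fun p => Sym2.lift ⟨fun i j => l * (h *ᵥ mul a (h.adjugate *ᵥ Pi.single i 1)
    (h.adjugate *ᵥ Pi.single j 1)) p.1, fun i j => by beta_reduce; rw [mul_comm']⟩ p.2

lemma T_apply (h : Matrix (Fin (N + 1)) (Fin (N + 1)) R) (l : R)
    (a : Fin (N + 1) × Sym2 (Fin (N + 1)) → R) (k i j : Fin (N + 1)) :
    T h l a (k, s(i, j)) = l * (h *ᵥ mul a (h.adjugate *ᵥ Pi.single i 1)
    (h.adjugate *ᵥ Pi.single j 1)) k := rfl

lemma eq_sum (x : Fin (N + 1) → R) : x = ∑ i, x i • (Pi.single i 1 : Fin (N + 1) → R) := by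
  funext k
  simp [Finset.sum_apply, Pi.single_apply]

lemma mul_T (h : Matrix (Fin (N + 1)) (Fin (N + 1)) R) (l : R)
    (a : Fin (N + 1) × Sym2 (Fin (N + 1)) → R) (x y : Fin (N + 1) → R) :
    mul (T h l a) x y = l • (h *ᵥ mul a (h.adjugate *ᵥ x) (h.adjugate *ᵥ y)) := by
  conv_rhs => rw [eq_sum x, eq_sum y]
  simp only [mulVec_sum, mul_sum_left, mul_sum_right, mulVec_smul, mul_smul_left, mul_smul_right,
    Finset.smul_sum]
  funext k
  simp only [mul, Finset.sum_apply, T_apply, Pi.smul_apply, smul_eq_mul]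
  rw [Finset.sum_comm]
  refine Finset.sum_congr rfl fun i _ => Finset.sum_congr rfl fun j _ => ?_
  ring

lemma ext_mul {a b : Fin (N + 1) × Sym2 (Fin (N + 1)) → R}
    (h : ∀ x y, mul a x y = mul b x y) : a = b := by
  funext ⟨k, s⟩
  induction s using Sym2.ind with
  | _ i j => rw [← mul_single a, ← mul_single b, h]

section map
variable {S : Type*} [CommRing S] (f : R →+* S)

lemma map_mul' (a : Fin (N + 1) × Sym2 (Fin (N + 1)) → R) (x y : Fin (N + 1) → R) :
    (fun k => f (mul a x y k)) = mul (fun p => f (a p)) (fun i => f (x i)) (fun i => f (y i)) := by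
  funext k
  simp [mul, map_sum, map_mul]

lemma map_mulVec' (h : Matrix (Fin (N + 1)) (Fin (N + 1)) R) (x : Fin (N + 1) → R) :
    (fun k => f ((h *ᵥ x) k)) = (h.map f) *ᵥ (fun i => f (x i)) := by
  funext k
  simp [mulVec, dotProduct, map_sum, map_mul]

lemma map_w (a : Fin (N + 1) × Sym2 (Fin (N + 1)) → R) :
    (fun k => f (w a k)) = w (fun p => f (a p)) := by
  funext k
  simp [w, map_sum]

lemma map_Qm (a : Fin (N + 1) × Sym2 (Fin (N + 1)) → R) :
    (Qm a).map f = Qm (fun p => f (a p)) := by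
  ext i j
  simp only [Qm, map_apply, of_apply, map_sum, map_mul, ← map_w f a]

lemma map_adj (h : Matrix (Fin (N + 1)) (Fin (N + 1)) R) :
    h.adjugate.map f = (h.map f).adjugate := by
  have := f.map_adjugate h
  simpa [RingHom.mapMatrix_apply] using this

lemma map_dt (h : Matrix (Fin (N + 1)) (Fin (N + 1)) R) :
    f h.det = (h.map f).det := by
  have := f.map_det h
  simpa [RingHom.mapMatrix_apply] using this

lemma map_ut (a : Fin (N + 1) × Sym2 (Fin (N + 1)) → R) :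
    (fun k => f (ut a k)) = ut (fun p => f (a p)) := by
  simp only [ut]
  rw [map_mulVec', map_adj, map_Qm, map_w]

lemma map_itt (a : Fin (N + 1) × Sym2 (Fin (N + 1)) → R) (i : ℕ) :
    (fun k => f (itt a i k)) = itt (fun p => f (a p)) i := by
  induction i with
  | zero => exact map_ut f a
  | succ i ih => rw [itt, itt, map_mul', map_ut, ih]

lemma map_gt (a : Fin (N + 1) × Sym2 (Fin (N + 1)) → R) :
    (gt a).map f = gt (fun p => f (a p)) := by
  ext r i
  simp only [gt, map_apply, of_apply]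
  exact congrFun (map_itt f a i) r

lemma map_Pn (a : Fin (N + 1) × Sym2 (Fin (N + 1)) → R) (l i j : Fin (N + 1)) :
    f (Pn a l i j) = Pn (fun p => f (a p)) l i j := by
  simp only [Pn]
  rw [map_mul, map_pow, map_dt, map_Qm]
  congr 1
  have := congrFun (map_mulVec' f (gt a).adjugate (mul a (itt a i) (itt a j))) l
  rw [this, map_adj, map_gt, map_mul', map_itt, map_itt]

lemma map_Qn (a : Fin (N + 1) × Sym2 (Fin (N + 1)) → R) (i j : Fin (N + 1)) :
    f (Qn a i j) = Qn (fun p => f (a p)) i j := by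
  simp only [Qn]
  rw [map_mul, map_pow, map_dt, map_dt, map_Qm, map_gt]

lemma map_T (h : Matrix (Fin (N + 1)) (Fin (N + 1)) R) (l : R)
    (a : Fin (N + 1) × Sym2 (Fin (N + 1)) → R) :
    (fun p => f (T h l a p)) = T (h.map f) (f l) (fun p => f (a p)) := by
  funext ⟨k, s⟩
  induction s using Sym2.ind with
  | _ i j =>
    rw [T_apply, T_apply, map_mul]
    congr 1
    have := congrFun (map_mulVec' f h (mul a (h.adjugate *ᵥ Pi.single i 1)
      (h.adjugate *ᵥ Pi.single j 1))) k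
    rw [this, map_mul', map_mulVec', map_mulVec', map_adj]
    have e : ∀ i : Fin (N + 1), (fun r => f ((Pi.single i 1 : Fin (N + 1) → R) r))
        = Pi.single i 1 := by
      intro i; funext r; by_cases hr : r = i
      · subst hr; simp
      · simp [hr]
    rw [e, e]

end map

end ring

section field
variable {k : Type*} [Field k] {a : Fin (N + 1) × Sym2 (Fin (N + 1)) → k}

lemma ut_eq (h : (Qm a).det ≠ 0) : ut a = (Qm a).det • uu a := by
  rw [ut, uu, inv_def, Ring.inverse_eq_inv', smul_mulVec, smul_smul, mul_inv_cancel₀ h, one_smul]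

lemma itt_eq (h : (Qm a).det ≠ 0) (i : ℕ) : itt a i = (Qm a).det ^ (i + 1) • it a i := by
  induction i with
  | zero => rw [itt, it, ut_eq h]; simp
  | succ i ih => rw [itt, it, ih, ut_eq h, mul_smul_left, mul_smul_right, smul_smul]; congr 1; ring

lemma gt_eq (h : (Qm a).det ≠ 0) :
    gt a = gg a * Matrix.diagonal (fun i : Fin (N + 1) => (Qm a).det ^ ((i : ℕ) + 1)) := by
  ext r i
  rw [mul_diagonal]
  simp only [gt, gg, of_apply, itt_eq h, Pi.smul_apply, smul_eq_mul]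
  ring

lemma detgt_ne (h : (Qm a).det ≠ 0) : (gt a).det ≠ 0 ↔ (gg a).det ≠ 0 := by
  rw [gt_eq h, det_mul, det_diagonal]
  constructor
  · intro h1 h2; exact h1 (by rw [h2, zero_mul])
  · intro h1; exact mul_ne_zero h1 (Finset.prod_ne_zero_iff.2 fun i _ => pow_ne_zero _ h)

lemma Pn_eq (h : (Qm a).det ≠ 0) (hg : (gg a).det ≠ 0) (l i j : Fin (N + 1)) :
    Pn a l i j = Qn a i j * ss a l i j := by
  have hgt : (gt a).det ≠ 0 := (detgt_ne h).2 hg
  set q := (Qm a).det with hq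
  set D := Matrix.diagonal (fun i : Fin (N + 1) => q ^ ((i : ℕ) + 1)) with hD
  -- gt a *ᵥ (D⁻¹ v) = gg a *ᵥ v
  have e1 : (gt a).adjugate = (gt a).det • (gt a)⁻¹ := by
    rw [inv_def, Ring.inverse_eq_inv', smul_smul, mul_inv_cancel₀ hgt, one_smul]
  have e2 : ∀ v : Fin (N + 1) → k, ((gt a)⁻¹ *ᵥ v) l = (q ^ ((l : ℕ) + 1))⁻¹ * ((gg a)⁻¹ *ᵥ v) l := by
    intro v
    have hv : v = gg a *ᵥ ((gg a)⁻¹ *ᵥ v) := by
      rw [mulVec_mulVec, mul_nonsing_inv _ (isUnit_iff_ne_zero.2 hg), one_mulVec]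
    have hv2 : v = gt a *ᵥ (fun r => (q ^ ((r : ℕ) + 1))⁻¹ * ((gg a)⁻¹ *ᵥ v) r) := by
      rw [gt_eq h, ← mulVec_mulVec]
      conv_lhs => rw [hv]
      congr 1
      funext r
      rw [mulVec_diagonal, ← mul_assoc, mul_inv_cancel₀ (pow_ne_zero _ h), one_mul]
    have := congrArg (fun z => ((gt a)⁻¹ *ᵥ z) l) hv2
    rw [mulVec_mulVec (fun r : Fin (N + 1) => (q ^ ((r : ℕ) + 1))⁻¹ * ((gg a)⁻¹ *ᵥ v) r) (gt a)⁻¹,
      nonsing_inv_mul _ (isUnit_iff_ne_zero.2 hgt), one_mulVec] at this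
    exact this
  rw [Pn, Qn, e1, smul_mulVec, Pi.smul_apply, e2, itt_eq h, itt_eq h, mul_smul_left,
    mul_smul_right, smul_smul, mulVec_smul, Pi.smul_apply, ss, ← hq]
  simp only [smul_eq_mul]
  have : q ^ ((l : ℕ) + 1) ≠ 0 := pow_ne_zero _ h
  field_simp
  ring

end field

end H353R6.Quad
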