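import Pool.Agent.H353R6.QB

namespace H353R6.Quad

open Matrix

variable {N : ℕ}

section field
variable {k : Type*} [Field k] {a : Fin (N + 1) × Sym2 (Fin (N + 1)) → k}

lemma gg_mulVec (v : Fin (N + 1) → k) : gg a *ᵥ v = ∑ l : Fin (N + 1), v l • it a l := by
  funext r
  simp only [mulVec, dotProduct, gg, of_apply, Finset.sum_apply, Pi.smul_apply, smul_eq_mul]
  exact Finset.sum_congr rfl fun i _ => mul_comm _ _

lemma str (hg : (gg a).det ≠ 0) (i j : Fin (N + 1)) :
    mul a (it a i) (it a j) = ∑ l : Fin (N + 1), ss a l i j • it a l := by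
  have : mul a (it a i) (it a j) = gg a *ᵥ ((gg a)⁻¹ *ᵥ mul a (it a i) (it a j)) := by
    rw [mulVec_mulVec, mul_nonsing_inv _ (isUnit_iff_ne_zero.2 hg), one_mulVec]
  rw [this, gg_mulVec]
  rfl

lemma gg_single (l : Fin (N + 1)) : gg a *ᵥ Pi.single l 1 = it a l := by
  funext r
  simp [gg]

lemma ss_zero (hg : (gg a).det ≠ 0) (i l : Fin (N + 1)) (hi : (i : ℕ) < N) :
    ss a l 0 i = if (l : ℕ) = (i : ℕ) + 1 then 1 else 0 := by
  have e : mul a (it a ((0 : Fin (N + 1)) : ℕ)) (it a i)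
      = gg a *ᵥ Pi.single (⟨i + 1, by omega⟩ : Fin (N + 1)) 1 := by
    rw [gg_single]; rfl
  rw [ss, e, mulVec_mulVec, nonsing_inv_mul _ (isUnit_iff_ne_zero.2 hg), one_mulVec,
    Pi.single_apply]
  congr 1
  exact propext ⟨fun h => by rw [h], fun h => Fin.ext h⟩

lemma om_it (h : (Qm a).det ≠ 0) (i : ℕ) : om a (it a i) = om a (uu a) := by
  induction i with
  | zero => rfl
  | succ i ih => rw [it, om_uu h, ih]

lemma om_ss (hg : (gg a).det ≠ 0) (i : Fin (N + 1)) :
    om a (it a i) = ∑ l : Fin (N + 1), ss a l i l := by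
  have e : (gg a)⁻¹ * (Lm a (it a i) * gg a) = Matrix.of fun l j => ss a l i j := by
    refine Matrix.ext_of_mulVec_single ?_
    intro j
    rw [← mulVec_mulVec, ← mulVec_mulVec, gg_single, ← mul_eq]
    funext l
    simp [ss]
  have e2 := congrArg Matrix.trace e
  rw [trace_mul_comm, Matrix.mul_assoc, mul_nonsing_inv _ (isUnit_iff_ne_zero.2 hg),
    Matrix.mul_one] at e2
  rw [om, e2]
  rfl

lemma om_uu_ne (h : (Qm a).det ≠ 0) (hg : (gg a).det ≠ 0) : om a (uu a) ≠ 0 := by
  intro h0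
  have hall : ∀ y, om a y = 0 := by
    intro y
    have : y = gg a *ᵥ ((gg a)⁻¹ *ᵥ y) := by
      rw [mulVec_mulVec, mul_nonsing_inv _ (isUnit_iff_ne_zero.2 hg), one_mulVec]
    rw [this, gg_mulVec, om_sum]
    exact Finset.sum_eq_zero fun l _ => by rw [om_smul, om_it h, h0, mul_zero]
  have hw : w a = 0 := by
    funext j
    have := hall (Pi.single j 1)
    rw [om_eq] at this
    simpa [Pi.single_apply] using this
  have hQ : Qm a = 0 := by
    ext i j
    simp [Qm, hw]
  exact h (by rw [hQ, det_zero])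

lemma sum_last (h : (Qm a).det ≠ 0) (hg : (gg a).det ≠ 0) :
    ∑ l : Fin (N + 1), ss a l 0 (Fin.last N) = 1 := by
  have e := congrArg (om a) (str hg 0 (Fin.last N))
  rw [om_sum] at e
  have e1 : om a (mul a (it a ((0 : Fin (N + 1)) : ℕ)) (it a (Fin.last N))) = om a (uu a) := by
    have : it a ((0 : Fin (N + 1)) : ℕ) = uu a := rfl
    rw [this, om_uu h, om_it h]
  rw [e1] at e
  simp only [om_smul, om_it h] at e
  rw [← Finset.sum_mul] at e
  exact (mul_right_cancel₀ (om_uu_ne h hg) (by rw [← e, one_mul]))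

lemma trace_zero (_hN : 1 ≤ N) (hg : (gg a).det ≠ 0) :
    om a (uu a) = ss a (Fin.last N) 0 (Fin.last N) := by
  have : om a (uu a) = om a (it a ((0 : Fin (N + 1)) : ℕ)) := rfl
  rw [this, om_ss hg, Finset.sum_eq_single (Fin.last N)]
  · intro l _ hl
    have hl' : (l : ℕ) < N := by
      have := l.2
      have h2 : (l : ℕ) ≠ N := fun h => hl (Fin.ext h)
      omega
    rw [ss_zero hg l l hl', if_neg (by omega)]
  · simp

lemma trace_eq (hN : 1 ≤ N) (h : (Qm a).det ≠ 0) (hg : (gg a).det ≠ 0) (i : Fin (N + 1)) :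
    ∑ l : Fin (N + 1), ss a l i l = ss a (Fin.last N) 0 (Fin.last N) := by
  rw [← om_ss hg, om_it h, trace_zero hN hg]

lemma ss_symm (l i j : Fin (N + 1)) : ss a l i j = ss a l j i := by
  rw [ss, ss, mul_comm']

/-- recover the structure constants -/
lemma recover (hg : (gg a).det ≠ 0) (x y : Fin (N + 1) → k) :
    mul a x y = gg a *ᵥ mul (fun p => Sym2.lift ⟨fun i j => ss a p.1 i j, fun i j =>
      ss_symm p.1 i j⟩ p.2) ((gg a)⁻¹ *ᵥ x) ((gg a)⁻¹ *ᵥ y) := by
  have hx : x = gg a *ᵥ ((gg a)⁻¹ *ᵥ x) := by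
    rw [mulVec_mulVec, mul_nonsing_inv _ (isUnit_iff_ne_zero.2 hg), one_mulVec]
  have hy : y = gg a *ᵥ ((gg a)⁻¹ *ᵥ y) := by
    rw [mulVec_mulVec, mul_nonsing_inv _ (isUnit_iff_ne_zero.2 hg), one_mulVec]
  set x' := (gg a)⁻¹ *ᵥ x
  set y' := (gg a)⁻¹ *ᵥ y
  rw [hx, hy, gg_mulVec x', gg_mulVec y', gg_mulVec]
  simp only [mul_sum_left, mul_sum_right, mul_smul_left, mul_smul_right, str hg]
  simp only [mul, Sym2.lift_mk, Finset.sum_smul, Finset.smul_sum, smul_smul]
  -- LHS : ∑ x', ∑ x, ∑ l, ... ; RHS: ∑ l ∑ i ∑ j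
  symm
  rw [Finset.sum_comm]
  conv_lhs => enter [2, i]; rw [Finset.sum_comm]
  rw [Finset.sum_comm]
  refine Finset.sum_congr rfl fun i _ => Finset.sum_congr rfl fun j _ =>
    Finset.sum_congr rfl fun l _ => ?_
  congr 1; ring

end field

/-! the special point -/

def f0 (N : ℕ) (l i j : Fin (N + 1)) : ℂ :=
  if i = 0 then (if (l : ℕ) = min ((j : ℕ) + 1) N then 1 else 0)
  else if j = 0 then (if (l : ℕ) = min ((i : ℕ) + 1) N then 1 else 0)
  else (if i = j ∧ l = i then 1 else 0) + (if l = 0 then 1 else 0)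

lemma f0_symm (N : ℕ) (l i j : Fin (N + 1)) : f0 N l i j = f0 N l j i := by
  unfold f0
  by_cases hi : i = 0 <;> by_cases hj : j = 0 <;> simp [hi, hj]
  by_cases hij : i = j
  · subst hij; rfl
  · simp [hij, Ne.symm hij]

def a0 (N : ℕ) : Fin (N + 1) × Sym2 (Fin (N + 1)) → ℂ :=
  fun p => Sym2.lift ⟨fun i j => f0 N p.1 i j, fun i j => f0_symm N p.1 i j⟩ p.2

lemma a0_apply (N : ℕ) (l i j : Fin (N + 1)) : a0 N (l, s(i, j)) = f0 N l i j := rfl

lemma w_a0 (hN : 1 ≤ N) (j : Fin (N + 1)) : w (a0 N) j = 1 := by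
  simp only [w, a0_apply]
  by_cases hj : j = 0
  · subst hj
    rw [Finset.sum_eq_single (Fin.last N)]
    · simp [f0]
    · intro b _ hb
      have hb' : (b : ℕ) ≠ N := fun h => hb (Fin.ext h)
      have := b.2
      simp only [f0, if_true]
      rw [if_neg]
      omega
    · simp
  · rw [Finset.sum_eq_single j]
    · simp [f0, hj]
    · intro b _ hb
      simp only [f0, hj, if_false]
      by_cases hb0 : b = 0
      · subst hb0
        simp only [if_true]
        rw [if_neg]
        have : (j : ℕ) ≠ 0 := fun h => hj (Fin.ext h)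
        simp; omega
      · simp [hb0, hb, Ne.symm hb]
    · simp

lemma Q_a0 (hN : 1 ≤ N) (i j : Fin (N + 1)) :
    Qm (a0 N) i j = 1 + if i = j ∧ i ≠ 0 then 1 else 0 := by
  simp only [Qm, of_apply, w_a0 hN, one_mul, a0_apply, f0]
  have key : ∀ m : Fin (N + 1), ∑ l : Fin (N + 1), (if (l : ℕ) = min ((m : ℕ) + 1) N then (1 : ℂ) else 0) = 1 := by
    intro m
    have : (min ((m : ℕ) + 1) N) < N + 1 := by omega
    rw [Finset.sum_eq_single (⟨min ((m : ℕ) + 1) N, this⟩ : Fin (N + 1))]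
    · simp
    · intro b _ hb
      rw [if_neg]
      intro h; exact hb (Fin.ext h)
    · simp
  by_cases hi : i = 0
  · simp only [hi, if_true]
    rw [key]; simp
  · by_cases hj : j = 0
    · simp only [hi, hj, if_true, if_false]
      rw [key]; simp [hi]
    · simp only [hi, hj, if_false, Finset.sum_add_distrib, Finset.sum_ite_eq', Finset.mem_univ,
        if_true]
      rw [add_comm]
      congr 1
      by_cases hij : i = j
      · subst hij; simp [hi]
      · simp [hij]

lemma detQ_a0 (hN : 1 ≤ N) : (Qm (a0 N)).det ≠ 0 := by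
  intro h
  obtain ⟨v, hv0, hv⟩ := Matrix.exists_mulVec_eq_zero_iff.2 h
  apply hv0
  have h1 : ∀ i, (∑ j, v j) + (if i ≠ 0 then v i else 0) = 0 := by
    intro i
    have := congrFun hv i
    simp only [mulVec, dotProduct, Q_a0 hN, add_mul, one_mul, Finset.sum_add_distrib,
      Pi.zero_apply] at this
    refine Eq.trans ?_ this
    congr 1
    by_cases hi : i = 0
    · simp [hi]
    · simp only [hi, ne_eq, not_false_eq_true, and_true, if_true]
      simp
  have h2 : ∑ j, v j = 0 := by simpa using h1 0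
  have h3 : ∀ i, i ≠ 0 → v i = 0 := by
    intro i hi
    simpa [h2, hi] using h1 i
  funext i
  by_cases hi : i = 0
  · subst hi
    rw [Finset.sum_eq_single 0 (fun b _ hb => h3 b hb) (by simp)] at h2
    exact h2
  · exact h3 i hi

lemma uu_a0 (hN : 1 ≤ N) : uu (a0 N) = Pi.single 0 1 := by
  have : w (a0 N) = Qm (a0 N) *ᵥ Pi.single 0 1 := by
    funext i
    rw [w_a0 hN]
    simp [Q_a0 hN]
  rw [uu, this, mulVec_mulVec, nonsing_inv_mul _ (isUnit_iff_ne_zero.2 (detQ_a0 hN)), one_mulVec]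

lemma it_a0 (hN : 1 ≤ N) (i : ℕ) (hi : i < N + 1) : it (a0 N) i = Pi.single ⟨i, hi⟩ 1 := by
  induction i with
  | zero => exact uu_a0 hN
  | succ i ih =>
    rw [it, ih (by omega), uu_a0 hN]
    funext l
    rw [mul_single, a0_apply]
    simp only [f0, if_true, Pi.single_apply]
    congr 1
    apply propext
    constructor
    · intro h
      apply Fin.ext
      simp only [h]
      omega
    · intro h
      rw [h]
      simp only
      omega

lemma gg_a0 (hN : 1 ≤ N) : (gg (a0 N)).det ≠ 0 := by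
  have : gg (a0 N) = 1 := by
    ext r i
    simp only [gg, of_apply, it_a0 hN i i.2, Matrix.one_apply, Pi.single_apply]
  rw [this, det_one]
  exact one_ne_zero

end H353R6.Quad
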