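import Pool.Agent.H353R6.QC

namespace H353R6.Quad

open Matrix

variable {N : ℕ}

/-- index set of the coefficients of a quadratic map of `ℂ^(N+1)` -/
abbrev Idx (N : ℕ) := Fin (N + 1) × Sym2 (Fin (N + 1))

/-- the homogeneous quadratic map with (symmetric) coefficients `a` -/
def quad (a : Idx N → ℂ) (x : Fin (N + 1) → ℂ) : Fin (N + 1) → ℂ :=
  fun k => ∑ i, ∑ j, a (k, s(i, j)) * (x i * x j)

/-- `b` is conjugate to `a`, up to a common scalar -/
def Conj (a b : Idx N → ℂ) : Prop :=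
  ∃ (h : Matrix (Fin (N + 1)) (Fin (N + 1)) ℂ) (l : ℂ), h.det ≠ 0 ∧ l ≠ 0 ∧
    ∀ x, quad b (h *ᵥ x) = l • (h *ᵥ quad a x)

/-- the rational function `P / Q` takes equal values at conjugate points -/
def Inv (P Q : MvPolynomial (Idx N) ℂ) : Prop :=
  ∀ a b, Conj a b →
    MvPolynomial.eval b P * MvPolynomial.eval a Q = MvPolynomial.eval a P * MvPolynomial.eval b Q

/-- the rational functions on the space of quadratic maps -/
abbrev Rat (N : ℕ) := FractionRing (MvPolynomial (Idx N) ℂ)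

/-- invariant rational functions -/
def IsInv (φ : Rat N) : Prop :=
  ∃ P Q : MvPolynomial (Idx N) ℂ, Q ≠ 0 ∧
    φ = algebraMap _ (Rat N) P / algebraMap _ (Rat N) Q ∧ Inv P Q

theorem IsInv.mul {φ ψ : Rat N} : IsInv φ → IsInv ψ → IsInv (φ * ψ) := by
    rintro ⟨P, Q, hQ, rfl, h⟩ ⟨P', Q', hQ', rfl, h'⟩
    refine ⟨P * P', Q * Q', mul_ne_zero hQ hQ', ?_, fun a b hab => ?_⟩
    · rw [map_mul, map_mul, div_mul_div_comm]
    · have h1 := h a b hab
      have h2 := h' a b hab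
      simp only [map_mul]
      linear_combination (MvPolynomial.eval b P' * MvPolynomial.eval a Q') * h1 +
        (MvPolynomial.eval a P * MvPolynomial.eval b Q) * h2

theorem IsInv.add {φ ψ : Rat N} : IsInv φ → IsInv ψ → IsInv (φ + ψ) := by
    rintro ⟨P, Q, hQ, rfl, h⟩ ⟨P', Q', hQ', rfl, h'⟩
    refine ⟨P * Q' + Q * P', Q * Q', mul_ne_zero hQ hQ', ?_, fun a b hab => ?_⟩
    · have e1 : algebraMap _ (Rat N) Q ≠ 0 :=
        (map_ne_zero_iff _ (IsFractionRing.injective _ _)).2 hQ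
      have e2 : algebraMap _ (Rat N) Q' ≠ 0 :=
        (map_ne_zero_iff _ (IsFractionRing.injective _ _)).2 hQ'
      rw [div_add_div _ _ e1 e2]
      simp only [map_mul, map_add]
    · have h1 := h a b hab
      have h2 := h' a b hab
      simp only [map_mul, map_add]
      linear_combination (MvPolynomial.eval b Q' * MvPolynomial.eval a Q') * h1 +
        (MvPolynomial.eval a Q * MvPolynomial.eval b Q) * h2

theorem IsInv.const (r : ℂ) : IsInv (algebraMap ℂ (Rat N) r) := by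
    refine ⟨MvPolynomial.C r, 1, one_ne_zero, ?_, fun a b _ => by simp⟩
    rw [map_one, div_one, IsScalarTower.algebraMap_apply ℂ (MvPolynomial (Idx N) ℂ)]
    rfl

theorem IsInv.inv {φ : Rat N} : IsInv φ → IsInv φ⁻¹ := by
    rintro ⟨P, Q, hQ, rfl, h⟩
    by_cases hP : P = 0
    · refine ⟨0, 1, one_ne_zero, ?_, fun a b _ => by simp⟩
      simp [hP]
    · exact ⟨Q, P, hP, by rw [inv_div], fun a b hab => by
        have := h a b hab
        linear_combination -this⟩

/-- the field of invariant rational functions: the function field of the moduli space -/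
noncomputable def K (N : ℕ) : IntermediateField ℂ (Rat N) where
  carrier := {φ | IsInv φ}
  mul_mem' := IsInv.mul
  add_mem' := IsInv.add
  algebraMap_mem' := IsInv.const
  inv_mem' := fun _ => IsInv.inv

lemma Conj.rel {a b : Idx N → ℂ} (H : Conj a b) : ∃ h l, Rel a b h l := by
  obtain ⟨h, l, hd, hl, hx⟩ := H
  refine ⟨h, l, hd, hl, fun x y => ?_⟩
  have q : ∀ (c : Idx N → ℂ) x, quad c x = mul c x x := fun c x => rfl
  have h1 := hx (x + y)
  have h2 := hx x
  have h3 := hx y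
  rw [q, q] at h1 h2 h3
  rw [mulVec_add, mul_add_left, mul_add_right, mul_add_right, mul_add_left, mul_add_right,
    mul_add_right, h2, h3, mul_comm' b (h *ᵥ y) (h *ᵥ x), mul_comm' a y x] at h1
  simp only [mulVec_add, smul_add] at h1
  funext r
  have h4 := congrFun h1 r
  simp only [Pi.add_apply] at h4
  linear_combination (1 / 2 : ℂ) * h4

lemma Rel.conj {a b : Idx N → ℂ} {h l} (H : Rel a b h l) : Conj a b :=
  ⟨h, l, H.hd, H.hl, fun x => H.hm x x⟩

lemma Rel.symm {k : Type*} [Field k] {a b : Idx N → k} {h l} (H : Rel a b h l) :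
    Rel b a h⁻¹ l⁻¹ := by
  have hu := isUnit_iff_ne_zero.2 H.hd
  refine ⟨?_, inv_ne_zero H.hl, fun x y => ?_⟩
  · rw [det_nonsing_inv, Ring.inverse_eq_inv']; exact inv_ne_zero H.hd
  · have := H.hm (h⁻¹ *ᵥ x) (h⁻¹ *ᵥ y)
    rw [mulVec_mulVec, mulVec_mulVec, mul_nonsing_inv _ hu, one_mulVec, one_mulVec] at this
    rw [this, mulVec_smul, mulVec_mulVec, nonsing_inv_mul _ hu, one_mulVec, smul_smul,
      inv_mul_cancel₀ H.hl, one_smul]

lemma T_rel {k : Type*} [Field k] (h : Matrix (Fin (N + 1)) (Fin (N + 1)) k) (l : k)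
    (a : Idx N → k) (hd : h.det ≠ 0) (hl : l ≠ 0) : Rel a (T h l a) h (l * h.det ^ 2) := by
  refine ⟨hd, mul_ne_zero hl (pow_ne_zero _ hd), fun x y => ?_⟩
  rw [mul_T, mulVec_mulVec, mulVec_mulVec, adjugate_mul, smul_mulVec, smul_mulVec, one_mulVec,
    one_mulVec, mul_smul_left, mul_smul_right, smul_smul, mulVec_smul, smul_smul]
  congr 1
  ring

/-- the coordinates -/
noncomputable def Xp (N : ℕ) : Idx N → MvPolynomial (Idx N) ℂ := fun p => MvPolynomial.X p

/-- generic point -/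
noncomputable def XE (N : ℕ) : Idx N → FractionRing (MvPolynomial (Idx N) ℂ) :=
  fun p => algebraMap (MvPolynomial (Idx N) ℂ) _ (Xp N p)

lemma alg_aeval (P : MvPolynomial (Idx N) ℂ) :
    algebraMap _ (FractionRing (MvPolynomial (Idx N) ℂ)) P = MvPolynomial.aeval (XE N) P := by
  have : (MvPolynomial.aeval (XE N) : MvPolynomial (Idx N) ℂ →ₐ[ℂ] _) =
      IsScalarTower.toAlgHom ℂ (MvPolynomial (Idx N) ℂ) (FractionRing (MvPolynomial (Idx N) ℂ)) := by
    ext p
    simp [XE, Xp]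
  rw [this]; rfl

lemma ne_of_eval {D : MvPolynomial (Idx N) ℂ} (a : Idx N → ℂ) (h : MvPolynomial.eval a D ≠ 0) :
    algebraMap _ (FractionRing (MvPolynomial (Idx N) ℂ)) D ≠ 0 := by
  refine (map_ne_zero_iff _ (IsFractionRing.injective _ _)).2 ?_
  rintro rfl
  exact h (map_zero _)

lemma evX (b : Idx N → ℂ) : (fun p : Idx N => MvPolynomial.eval b (Xp N p)) = b := by
  funext p; simp [Xp]

lemma detQ_XE (hN : 1 ≤ N) : (Qm (XE N)).det ≠ 0 := by
  have e : (Qm (XE N)).det = algebraMap (MvPolynomial (Idx N) ℂ) _ (Qm (Xp N)).det := by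
    rw [map_dt, map_Qm]; rfl
  rw [e]
  refine ne_of_eval (a0 N) ?_
  rw [map_dt, map_Qm, evX]
  exact detQ_a0 hN

lemma detg_XE (hN : 1 ≤ N) : (gg (XE N)).det ≠ 0 := by
  rw [← detgt_ne (detQ_XE hN)]
  have e : (gt (XE N)).det = algebraMap (MvPolynomial (Idx N) ℂ) _ (gt (Xp N)).det := by
    rw [map_dt, map_gt]; rfl
  rw [e]
  refine ne_of_eval (a0 N) ?_
  rw [map_dt, map_gt, evX, detgt_ne (detQ_a0 hN)]
  exact gg_a0 hN

lemma Qn_ne {k : Type*} [Field k] {a : Idx N → k} (i j : Fin (N + 1)) :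
    Qn a i j ≠ 0 ↔ ((Qm a).det ≠ 0 ∧ (gg a).det ≠ 0) := by
  constructor
  · intro h
    have h1 : (Qm a).det ≠ 0 := by
      intro h0
      apply h
      rw [Qn, h0, zero_pow (by omega), mul_zero]
    refine ⟨h1, (detgt_ne h1).1 ?_⟩
    intro h0
    apply h
    rw [Qn, h0, zero_mul]
  · rintro ⟨h1, h2⟩
    exact mul_ne_zero ((detgt_ne h1).2 h2) (pow_ne_zero _ h1)

lemma ss_mem (hN : 1 ≤ N) (l i j : Fin (N + 1)) : ss (XE N) l i j ∈ K N := by
  refine ⟨Pn (Xp N) l i j, Qn (Xp N) i j, ?_, ?_, ?_⟩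
  · intro h
    have := congrArg (MvPolynomial.eval (a0 N)) h
    rw [map_Qn, evX, map_zero] at this
    exact (Qn_ne i j).2 ⟨detQ_a0 hN, gg_a0 hN⟩ this
  · rw [map_Pn, map_Qn]
    have e : (fun p : Idx N => algebraMap _ (FractionRing (MvPolynomial (Idx N) ℂ))
      (Xp N p)) = XE N := rfl
    rw [e, Pn_eq (detQ_XE hN) (detg_XE hN)]
    exact (mul_div_cancel_left₀ _ ((Qn_ne i j).2 ⟨detQ_XE hN, detg_XE hN⟩)).symm
  · intro a b hab
    obtain ⟨h, lam, H⟩ := hab.rel
    rw [map_Pn, map_Pn, map_Qn, map_Qn, evX, evX]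
    by_cases hg : (Qm a).det ≠ 0 ∧ (gg a).det ≠ 0
    · have hb1 := H.detQ hg.1
      have hb2 := H.detg hg.1 hg.2
      rw [Pn_eq hg.1 hg.2, Pn_eq hb1 hb2, H.ss hg.1 hg.2]
      ring
    · have hb : ¬ ((Qm b).det ≠ 0 ∧ (gg b).det ≠ 0) := by
        rintro ⟨h1, h2⟩
        exact hg ⟨H.symm.detQ h1, H.symm.detg h1 h2⟩
      have h1 : Qn a i j = 0 := by
        by_contra h0
        exact hg ((Qn_ne i j).1 h0)
      have h2 : Qn b i j = 0 := by
        by_contra h0
        exact hb ((Qn_ne i j).1 h0)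
      rw [h1, h2, mul_zero, mul_zero]

/-- structure constants in the canonical frame -/
noncomputable def sS {k : Type*} [Field k] (a : Idx N → k) : Idx N → k :=
  fun p => Sym2.lift ⟨fun i j => ss a p.1 i j, fun i j => ss_symm p.1 i j⟩ p.2

lemma sS_apply {k : Type*} [Field k] (a : Idx N → k) (l i j : Fin (N + 1)) :
    sS a (l, s(i, j)) = ss a l i j := rfl

lemma recover' {k : Type*} [Field k] {a : Idx N → k} (hg : (gg a).det ≠ 0)
    (x y : Fin (N + 1) → k) :
    mul a x y = gg a *ᵥ mul (sS a) ((gg a)⁻¹ *ᵥ x) ((gg a)⁻¹ *ᵥ y) := recover hg x y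

lemma adj_inv {k : Type*} [Field k] (g : Matrix (Fin (N + 1)) (Fin (N + 1)) k) (hg : g.det ≠ 0) :
    g.adjugate = g.det • g⁻¹ := by
  rw [inv_def, Ring.inverse_eq_inv', smul_smul, mul_inv_cancel₀ hg, one_smul]

lemma T_frame {k : Type*} [Field k] {a : Idx N → k} (hg : (gg a).det ≠ 0) :
    T (gg a) ((gg a).det ^ 2)⁻¹ (sS a) = a := by
  refine ext_mul fun x y => ?_
  rw [mul_T, recover' hg, adj_inv _ hg, smul_mulVec, smul_mulVec, mul_smul_left, mul_smul_right,
    smul_smul, mulVec_smul, smul_smul]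
  have : ((gg a).det ^ 2)⁻¹ * ((gg a).det * (gg a).det) = 1 := by
    rw [← pow_two, inv_mul_cancel₀ (pow_ne_zero _ hg)]
  rw [this, one_smul]

lemma T_comp {k : Type*} [Field k] {a : Idx N → k} (hg : (gg a).det ≠ 0)
    (c : Matrix (Fin (N + 1)) (Fin (N + 1)) k) (l : k) :
    T (c * (gg a)⁻¹) (l * (gg a).det ^ 2) a = T c l (sS a) := by
  refine ext_mul fun x y => ?_
  have hu := isUnit_iff_ne_zero.2 hg
  have hadj : ((gg a)⁻¹).adjugate = ((gg a).det)⁻¹ • gg a := by
    have h1 : ((gg a)⁻¹).det ≠ 0 := by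
      rw [det_nonsing_inv, Ring.inverse_eq_inv']; exact inv_ne_zero hg
    rw [adj_inv _ h1, nonsing_inv_nonsing_inv _ hu, det_nonsing_inv, Ring.inverse_eq_inv']
  rw [mul_T, mul_T, adjugate_mul_distrib, hadj, Matrix.smul_mul, smul_mulVec, smul_mulVec,
    mul_smul_left, mul_smul_right, smul_smul, mulVec_smul, smul_smul, ← mulVec_mulVec,
    ← mulVec_mulVec, recover' hg, mulVec_mulVec _ (gg a)⁻¹ (gg a), mulVec_mulVec _ (gg a)⁻¹ (gg a),
    nonsing_inv_mul _ hu, one_mulVec, one_mulVec, ← mulVec_mulVec, mulVec_mulVec _ (gg a)⁻¹ (gg a),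
    nonsing_inv_mul _ hu, one_mulVec]
  congr 1
  field_simp

end H353R6.Quad
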