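import Pool.Agent.H353R6.QD

namespace H353R6.Quad

open Matrix

variable {N : ℕ}

/-- positions of the non-free coordinates -/
def e (N : ℕ) (p : Fin (N + 1) × Fin (N + 1)) : Idx N :=
  if p.2 ≠ Fin.last N then (p.1, s(0, p.2))
  else if p.1 = 0 then (0, s(0, Fin.last N)) else (p.1, s(p.1, p.1))

lemma e_inj (_hN : 1 ≤ N) : Function.Injective (e N) := by
  rintro ⟨k, i⟩ ⟨k', i'⟩ h
  unfold e at h
  simp only at h
  by_cases h1 : i = Fin.last N <;> by_cases h2 : i' = Fin.last N <;>
    by_cases h3 : k = 0 <;> by_cases h4 : k' = 0 <;>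
    simp only [h1, h2, h3, h4, ne_eq, not_true, not_false_iff, if_true, if_false, Prod.mk.injEq,
      Sym2.eq_iff, true_and, and_true, and_self, or_self] at h ⊢ <;>
    grind

/-- the free positions -/
abbrev J (N : ℕ) := {p : Idx N // p ∉ Set.range (e N)}

lemma card_J (hN : 1 ≤ N) : Fintype.card (J N ⊕ (Fin (N + 1) × Fin (N + 1))) =
    Fintype.card (Idx N) := by
  classical
  rw [Fintype.card_sum]
  have h1 : Fintype.card (J N) = Fintype.card (Idx N) -
      Fintype.card {p : Idx N // p ∈ Set.range (e N)} := by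
    rw [← Fintype.card_subtype_compl]
  have h2 : Fintype.card {p : Idx N // p ∈ Set.range (e N)} =
      Fintype.card (Fin (N + 1) × Fin (N + 1)) := by
    exact Set.card_range_of_injective (e_inj hN)
  have h3 : Fintype.card {p : Idx N // p ∈ Set.range (e N)} ≤ Fintype.card (Idx N) :=
    Fintype.card_subtype_le _
  omega

/-- the field generated by the free coordinates -/
noncomputable def K' (N : ℕ) : IntermediateField ℂ (FractionRing (MvPolynomial (Idx N) ℂ)) :=
  IntermediateField.adjoin ℂ (Set.range (fun j : J N => sS (XE N) j.1))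

lemma free_mem (p : Idx N) (hp : p ∉ Set.range (e N)) : sS (XE N) p ∈ K' N :=
  IntermediateField.subset_adjoin _ _ ⟨⟨p, hp⟩, rfl⟩

lemma last_mem (hN : 1 ≤ N) (l : Fin (N + 1)) : sS (XE N) (l, s(0, Fin.last N)) ∈ K' N := by
  have hfree : ∀ l : Fin (N + 1), l ≠ 0 → sS (XE N) (l, s(0, Fin.last N)) ∈ K' N := by
    intro l hl
    refine free_mem _ ?_
    rintro ⟨⟨k, i⟩, h⟩
    unfold e at h
    simp only at h
    have h0 : (0 : Fin (N + 1)) ≠ Fin.last N := by
      intro h; have := congrArg Fin.val h; simp at this; omega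
    by_cases h1 : i = Fin.last N <;> by_cases h3 : k = 0 <;>
      simp only [h1, h3, ne_eq, not_true, not_false_iff, if_true, if_false, Prod.mk.injEq,
        Sym2.eq_iff, true_and, and_true] at h <;> grind
  by_cases hl : l = 0
  · subst hl
    have h1 := sum_last (detQ_XE hN) (detg_XE hN)
    rw [← Finset.add_sum_erase _ _ (Finset.mem_univ (0 : Fin (N + 1)))] at h1
    have h2 : sS (XE N) (0, s(0, Fin.last N)) =
        1 - ∑ l ∈ Finset.univ.erase (0 : Fin (N + 1)), ss (XE N) l 0 (Fin.last N) := by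
      rw [sS_apply, ← h1]; ring
    rw [h2]
    exact sub_mem (one_mem _) (sum_mem fun l hl => hfree l (Finset.ne_of_mem_erase hl))
  · exact hfree l hl

lemma zero_mem' (hN : 1 ≤ N) (l i : Fin (N + 1)) : sS (XE N) (l, s(0, i)) ∈ K' N := by
  by_cases hi : i = Fin.last N
  · subst hi; exact last_mem hN l
  · have hi' : (i : ℕ) < N := by
      have := i.2
      have h2 : (i : ℕ) ≠ N := fun h => hi (Fin.ext h)
      omega
    rw [sS_apply, ss_zero (detg_XE hN) i l hi']
    split_ifs
    · exact one_mem _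
    · exact zero_mem _

lemma all_mem (hN : 1 ≤ N) (p : Idx N) : sS (XE N) p ∈ K' N := by
  obtain ⟨l, s⟩ := p
  induction s using Sym2.ind with
  | _ i j =>
    by_cases hi : i = 0
    · subst hi; exact zero_mem' hN l j
    by_cases hj : j = 0
    · subst hj; rw [Sym2.eq_swap]; exact zero_mem' hN l i
    have hfree : ∀ l i j : Fin (N + 1), i ≠ 0 → j ≠ 0 → ¬ (l = i ∧ l = j) →
        sS (XE N) (l, s(i, j)) ∈ K' N := by
      intro l i j hi hj hne
      refine free_mem _ ?_
      rintro ⟨⟨k, i'⟩, h⟩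
      unfold e at h
      simp only at h
      by_cases h1 : i' = Fin.last N <;> by_cases h3 : k = 0 <;>
        simp only [h1, h3, ne_eq, not_true, not_false_iff, if_true, if_false, Prod.mk.injEq,
          Sym2.eq_iff, true_and, and_true] at h <;> grind
    by_cases hne : l = i ∧ l = j
    · obtain ⟨rfl, rfl⟩ := hne
      have h1 := trace_eq hN (detQ_XE hN) (detg_XE hN) l
      rw [← Finset.add_sum_erase _ _ (Finset.mem_univ l)] at h1
      have h2 : sS (XE N) (l, s(l, l)) = ss (XE N) (Fin.last N) 0 (Fin.last N) -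
          ∑ m ∈ Finset.univ.erase l, ss (XE N) m l m := by
        rw [sS_apply, ← h1]; ring
      rw [h2]
      refine sub_mem (last_mem hN _) (sum_mem fun m hm => ?_)
      have hml : m ≠ l := Finset.ne_of_mem_erase hm
      by_cases hm0 : m = 0
      · subst hm0
        rw [ss_symm]
        exact zero_mem' hN 0 l
      · exact hfree m l m hi hm0 (fun h => hml h.1)
    · exact hfree l i j hi hj hne

/-- matrices and vectors over a subfield -/
lemma T_mem (F : IntermediateField ℂ (FractionRing (MvPolynomial (Idx N) ℂ)))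
    (h : Matrix (Fin (N + 1)) (Fin (N + 1)) (FractionRing (MvPolynomial (Idx N) ℂ)))
    (l : FractionRing (MvPolynomial (Idx N) ℂ)) (a : Idx N → FractionRing (MvPolynomial (Idx N) ℂ))
    (hh : ∀ i j, h i j ∈ F) (hl : l ∈ F) (ha : ∀ p, a p ∈ F) (p : Idx N) : T h l a p ∈ F := by
  have := congrFun (map_T (algebraMap F (FractionRing (MvPolynomial (Idx N) ℂ)))
    (Matrix.of fun i j => ⟨h i j, hh i j⟩) ⟨l, hl⟩ (fun p => ⟨a p, ha p⟩)) p
  have e2 : T h l a p = algebraMap F (FractionRing (MvPolynomial (Idx N) ℂ))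
    (T (Matrix.of fun i j => (⟨h i j, hh i j⟩ : F)) (⟨l, hl⟩ : F)
      (fun p => (⟨a p, ha p⟩ : F)) p) := by
    rw [this]; rfl
  rw [e2]
  exact SetLike.coe_mem _

lemma aeval_mem (F : IntermediateField ℂ (FractionRing (MvPolynomial (Idx N) ℂ)))
    (a : Idx N → FractionRing (MvPolynomial (Idx N) ℂ)) (ha : ∀ p, a p ∈ F)
    (P : MvPolynomial (Idx N) ℂ) : MvPolynomial.aeval a P ∈ F := by
  have h : MvPolynomial.aeval a P =
      algebraMap F _ (MvPolynomial.aeval (fun p => (⟨a p, ha p⟩ : F)) P) := by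
    have := MvPolynomial.comp_aeval_apply (fun p => (⟨a p, ha p⟩ : F)) (IsScalarTower.toAlgHom ℂ F
      (FractionRing (MvPolynomial (Idx N) ℂ))) P
    exact this.symm
  rw [h]
  exact SetLike.coe_mem _

/-! generation of the whole field -/

noncomputable def xx (N : ℕ) : J N ⊕ (Fin (N + 1) × Fin (N + 1)) →
    FractionRing (MvPolynomial (Idx N) ℂ) :=
  Sum.elim (fun j => sS (XE N) j.1) (fun p => gg (XE N) p.1 p.2)

lemma det_mem (F : IntermediateField ℂ (FractionRing (MvPolynomial (Idx N) ℂ)))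
    (h : Matrix (Fin (N + 1)) (Fin (N + 1)) (FractionRing (MvPolynomial (Idx N) ℂ)))
    (hh : ∀ i j, h i j ∈ F) : h.det ∈ F := by
  have e2 : h.det = algebraMap F (FractionRing (MvPolynomial (Idx N) ℂ))
      (Matrix.of fun i j => (⟨h i j, hh i j⟩ : F)).det := by
    rw [map_dt]; rfl
  rw [e2]
  exact SetLike.coe_mem _

lemma adj_top (hN : 1 ≤ N) : IntermediateField.adjoin ℂ (Set.range (xx N)) = ⊤ := by
  set L := IntermediateField.adjoin ℂ (Set.range (xx N)) with hL
  have hg : ∀ i j, gg (XE N) i j ∈ L := fun i j =>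
    IntermediateField.subset_adjoin _ _ ⟨Sum.inr (i, j), rfl⟩
  have hs : ∀ p, sS (XE N) p ∈ L := by
    have : K' N ≤ L := by
      unfold K'
      rw [IntermediateField.adjoin_le_iff]
      rintro _ ⟨j, rfl⟩
      exact IntermediateField.subset_adjoin _ _ ⟨Sum.inl j, rfl⟩
    exact fun p => this (all_mem hN p)
  have hX : ∀ p, XE N p ∈ L := by
    intro p
    rw [← T_frame (detg_XE hN)]
    exact T_mem L _ _ _ hg (inv_mem (pow_mem (det_mem L _ hg) 2)) hs p
  rw [eq_top_iff]
  intro z _
  obtain ⟨P, Q, hQ, rfl⟩ := IsFractionRing.div_surjective (A := MvPolynomial (Idx N) ℂ) z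
  rw [alg_aeval, alg_aeval]
  exact div_mem (aeval_mem L _ hX P) (aeval_mem L _ hX Q)

lemma indep (hN : 1 ≤ N) : AlgebraicIndependent ℂ (xx N) := by
  have halg : Algebra.IsAlgebraic (Algebra.adjoin ℂ (Set.range (xx N)))
      (FractionRing (MvPolynomial (Idx N) ℂ)) := by
    refine ⟨fun z => ?_⟩
    have hz : z ∈ IntermediateField.adjoin ℂ (Set.range (xx N)) := by
      rw [adj_top hN]; trivial
    obtain ⟨r, hr, s, hs, rfl⟩ := IntermediateField.mem_adjoin_iff_div.1 hz
    have h1 : IsAlgebraic (Algebra.adjoin ℂ (Set.range (xx N))) r :=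
      isAlgebraic_algebraMap (⟨r, hr⟩ : Algebra.adjoin ℂ (Set.range (xx N)))
    have h2 : IsAlgebraic (Algebra.adjoin ℂ (Set.range (xx N))) s :=
      isAlgebraic_algebraMap (⟨s, hs⟩ : Algebra.adjoin ℂ (Set.range (xx N)))
    rw [div_eq_mul_inv]
    exact h1.mul h2.inv
  have hX : AlgebraicIndependent ℂ (XE N) := by
    have h := (MvPolynomial.algebraicIndependent_X (Idx N) ℂ)
    have h2 := h.map' (f := IsScalarTower.toAlgHom ℂ (MvPolynomial (Idx N) ℂ)
      (FractionRing (MvPolynomial (Idx N) ℂ))) (IsFractionRing.injective _ _)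
    exact h2
  have hle := hX.lift_cardinalMk_le_trdeg
  refine (Algebra.IsAlgebraic.isTranscendenceBasis_of_lift_le_trdeg_of_finite ℂ (xx N) ?_).1
  refine le_trans (le_of_eq ?_) hle
  have := card_J hN
  simp only [Cardinal.mk_fintype, this]

end H353R6.Quad
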