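import Pool.Agent.H353R6.QE

namespace H353R6.Quad

open Matrix

variable {N : ℕ}

abbrev Ta (N : ℕ) := (Fin (N + 1) × Fin (N + 1)) ⊕ (Unit ⊕ Idx N)

noncomputable def hG (N : ℕ) : Matrix (Fin (N + 1)) (Fin (N + 1)) (MvPolynomial (Ta N) ℂ) :=
  Matrix.of fun r c => MvPolynomial.X (Sum.inl (r, c))

noncomputable def lG (N : ℕ) : MvPolynomial (Ta N) ℂ := MvPolynomial.X (Sum.inr (Sum.inl ()))

noncomputable def aG (N : ℕ) : Idx N → MvPolynomial (Ta N) ℂ :=
  fun p => MvPolynomial.X (Sum.inr (Sum.inr p))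

noncomputable def Pi' (P Q : MvPolynomial (Idx N) ℂ) : MvPolynomial (Ta N) ℂ :=
  MvPolynomial.aeval (T (hG N) (lG N) (aG N)) P * MvPolynomial.aeval (aG N) Q -
    MvPolynomial.aeval (aG N) P * MvPolynomial.aeval (T (hG N) (lG N) (aG N)) Q

lemma aeval_Pi (P Q : MvPolynomial (Idx N) ℂ) {S : Type*} [CommRing S] [Algebra ℂ S]
    (h : Matrix (Fin (N + 1)) (Fin (N + 1)) S) (l : S) (a : Idx N → S) :
    MvPolynomial.aeval (Sum.elim (fun p => h p.1 p.2) (Sum.elim (fun _ => l) a)) (Pi' P Q) =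
      MvPolynomial.aeval (T h l a) P * MvPolynomial.aeval a Q -
        MvPolynomial.aeval a P * MvPolynomial.aeval (T h l a) Q := by
  set z : Ta N → S := Sum.elim (fun p => h p.1 p.2) (Sum.elim (fun _ => l) a) with hz
  have e1 : (fun p => MvPolynomial.aeval (R := ℂ) z (aG N p)) = a := by
    funext p; simp [aG, hz]
  have e2 : (fun p => MvPolynomial.aeval (R := ℂ) z (T (hG N) (lG N) (aG N) p)) = T h l a := by
    have := map_T (MvPolynomial.aeval (R := ℂ) z : MvPolynomial (Ta N) ℂ →ₐ[ℂ] S).toRingHom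
      (hG N) (lG N) (aG N)
    have e3 : (hG N).map (MvPolynomial.aeval (R := ℂ) z :
        MvPolynomial (Ta N) ℂ →ₐ[ℂ] S).toRingHom = h := by
      ext r c; simp [hG, hz]
    have e4 : (MvPolynomial.aeval (R := ℂ) z :
        MvPolynomial (Ta N) ℂ →ₐ[ℂ] S).toRingHom (lG N) = l := by
      simp [lG, hz]
    rw [e3, e4] at this
    rw [← e1]
    exact this.trans (by rfl)
  rw [Pi', map_sub, map_mul, map_mul]
  simp only [MvPolynomial.comp_aeval_apply]
  rw [e1, e2]

lemma Pi_zero (P Q : MvPolynomial (Idx N) ℂ) (hPQ : Inv P Q) : Pi' P Q = 0 := by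
  have h0 : (hG N).det * lG N ≠ 0 := by
    intro h
    have := congrArg (MvPolynomial.aeval (R := ℂ) (Sum.elim
      (fun p : Fin (N + 1) × Fin (N + 1) => (1 : Matrix (Fin (N + 1)) (Fin (N + 1)) ℂ) p.1 p.2)
      (Sum.elim (fun _ : Unit => (1 : ℂ)) (fun _ : Idx N => (0 : ℂ)))) :
        MvPolynomial (Ta N) ℂ →ₐ[ℂ] ℂ).toRingHom h
    rw [map_mul, map_dt, map_zero] at this
    have e3 : (hG N).map (MvPolynomial.aeval (R := ℂ) (Sum.elim
      (fun p : Fin (N + 1) × Fin (N + 1) => (1 : Matrix (Fin (N + 1)) (Fin (N + 1)) ℂ) p.1 p.2)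
      (Sum.elim (fun _ : Unit => (1 : ℂ)) (fun _ : Idx N => (0 : ℂ)))) :
        MvPolynomial (Ta N) ℂ →ₐ[ℂ] ℂ).toRingHom = 1 := by
      ext r c; simp [hG]
    rw [e3, det_one] at this
    simp [lG] at this
  have h1 : (hG N).det * lG N * Pi' P Q = 0 := by
    refine MvPolynomial.funext fun z => ?_
    set h : Matrix (Fin (N + 1)) (Fin (N + 1)) ℂ := Matrix.of fun r c => z (Sum.inl (r, c)) with hh
    set l : ℂ := z (Sum.inr (Sum.inl ())) with hl
    set a : Idx N → ℂ := fun p => z (Sum.inr (Sum.inr p)) with ha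
    have hz : z = Sum.elim (fun p => h p.1 p.2) (Sum.elim (fun _ => l) a) := by
      funext p
      rcases p with p | p | p <;> simp [hh, hl, ha]
    have e0 : MvPolynomial.eval z (hG N).det = h.det := by
      rw [map_dt]
      congr 1
      ext r c; simp [hG, hh]
    have e1 : MvPolynomial.eval z (lG N) = l := by simp [lG, hl]
    have e2 : MvPolynomial.eval z (Pi' P Q) = MvPolynomial.eval (T h l a) P * MvPolynomial.eval a Q -
        MvPolynomial.eval a P * MvPolynomial.eval (T h l a) Q := by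
      have := aeval_Pi P Q h l a
      rw [← hz] at this
      simpa [MvPolynomial.aeval_eq_eval] using this
    rw [map_mul, map_mul, e0, e1, e2, map_zero]
    by_cases hd : h.det = 0
    · rw [hd]; ring
    by_cases hl0 : l = 0
    · rw [hl0]; ring
    have := hPQ a (T h l a) (T_rel h l a hd hl0).conj
    rw [this]; ring
  exact (mul_eq_zero.1 h1).resolve_left h0

lemma key (P Q : MvPolynomial (Idx N) ℂ) (hPQ : Inv P Q) {S : Type*} [CommRing S] [Algebra ℂ S]
    (h : Matrix (Fin (N + 1)) (Fin (N + 1)) S) (l : S) (a : Idx N → S) :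
    MvPolynomial.aeval (T h l a) P * MvPolynomial.aeval a Q =
        MvPolynomial.aeval a P * MvPolynomial.aeval (T h l a) Q := by
  have := aeval_Pi P Q h l a
  rw [Pi_zero P Q hPQ, map_zero] at this
  exact (sub_eq_zero.1 this.symm)

/-- a nonzero value at a complex point of the group -/
lemma exists_pt (hN : 1 ≤ N) (Q : MvPolynomial (Idx N) ℂ) (hQ : Q ≠ 0) :
    ∃ (c : Matrix (Fin (N + 1)) (Fin (N + 1)) ℂ) (l : ℂ),
      MvPolynomial.aeval (T (c.map (algebraMap ℂ (FractionRing (MvPolynomial (Idx N) ℂ))))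
        (algebraMap ℂ _ l) (sS (XE N))) Q ≠ 0 := by
  set E := FractionRing (MvPolynomial (Idx N) ℂ) with hE
  set B := MvPolynomial ((Fin (N + 1) × Fin (N + 1)) ⊕ Unit) E with hB
  let hh : Matrix (Fin (N + 1)) (Fin (N + 1)) B :=
    Matrix.of fun r c => MvPolynomial.X (Sum.inl (r, c))
  let lh : B := MvPolynomial.X (Sum.inr ())
  let ah : Idx N → B := fun p => MvPolynomial.C (sS (XE N) p)
  let ψ : B := MvPolynomial.aeval (T hh lh ah) Q
  have hev : ∀ (h : Matrix (Fin (N + 1)) (Fin (N + 1)) E) (l : E),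
      MvPolynomial.eval (Sum.elim (fun p => h p.1 p.2) (fun _ => l)) ψ =
        MvPolynomial.aeval (T h l (sS (XE N))) Q := by
    intro h l
    set z : (Fin (N + 1) × Fin (N + 1)) ⊕ Unit → E := Sum.elim (fun p => h p.1 p.2) (fun _ => l)
      with hz
    have e1 : MvPolynomial.eval z ψ = ((MvPolynomial.aeval (R := E) z : B →ₐ[E] E).restrictScalars ℂ)
        (MvPolynomial.aeval (T hh lh ah) Q) := by
      rw [AlgHom.restrictScalars_apply, MvPolynomial.aeval_eq_eval]
    rw [e1, MvPolynomial.comp_aeval_apply]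
    congr 2
    have := map_T (MvPolynomial.eval z) hh lh ah
    have e3 : hh.map (MvPolynomial.eval z) = h := by
      ext r c; simp [hh, hz]
    have e4 : MvPolynomial.eval z lh = l := by simp [lh, hz]
    have e5 : (fun p => MvPolynomial.eval z (ah p)) = sS (XE N) := by
      funext p; simp [ah]
    rw [e3, e4, e5] at this
    rw [← this]
    funext p
    rw [AlgHom.restrictScalars_apply, MvPolynomial.aeval_eq_eval]
  have hψ : ψ ≠ 0 := by
    intro h0
    have h1 := hev (gg (XE N)) (((gg (XE N)).det ^ 2)⁻¹)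
    rw [h0, map_zero, T_frame (detg_XE hN), ← alg_aeval] at h1
    exact ((map_ne_zero_iff _ (IsFractionRing.injective (MvPolynomial (Idx N) ℂ) E)).2 hQ) h1.symm
  by_contra hcon
  push Not at hcon
  apply hψ
  refine MvPolynomial.funext_set (fun _ => Set.range (algebraMap ℂ E)) (fun _ => ?_) ?_
  · exact Set.infinite_range_of_injective (algebraMap ℂ E).injective
  · intro x hx
    choose y hy using (fun i => hx i (Set.mem_univ i))
    have h2 := hev ((Matrix.of fun r c => y (Sum.inl (r, c))).map (algebraMap ℂ E))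
      (algebraMap ℂ E (y (Sum.inr ())))
    have hx' : x = Sum.elim (fun p => ((Matrix.of fun r c => y (Sum.inl (r, c))).map
        (algebraMap ℂ E)) p.1 p.2) (fun _ => algebraMap ℂ E (y (Sum.inr ()))) := by
      funext p
      rcases p with p | p
      · simp [hy]
      · simp [hy]
    rw [hx', h2, hcon, map_zero]

lemma K_le (hN : 1 ≤ N) : K N ≤ K' N := by
  rintro _ ⟨P, Q, hQ, rfl, hPQ⟩
  obtain ⟨c, l, hne⟩ := exists_pt hN Q hQ
  set E := FractionRing (MvPolynomial (Idx N) ℂ) with hE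
  set t := T (c.map (algebraMap ℂ E)) (algebraMap ℂ E l) (sS (XE N)) with ht
  have ht' : t = T (c.map (algebraMap ℂ E) * (gg (XE N))⁻¹)
      (algebraMap ℂ E l * (gg (XE N)).det ^ 2) (XE N) := (T_comp (detg_XE hN) _ _).symm
  have hk := key P Q hPQ (c.map (algebraMap ℂ E) * (gg (XE N))⁻¹)
      (algebraMap ℂ E l * (gg (XE N)).det ^ 2) (XE N)
  rw [← ht', ← alg_aeval, ← alg_aeval] at hk
  have hQE : algebraMap (MvPolynomial (Idx N) ℂ) E Q ≠ 0 :=
    (map_ne_zero_iff _ (IsFractionRing.injective _ _)).2 hQ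
  have : algebraMap (MvPolynomial (Idx N) ℂ) E P / algebraMap (MvPolynomial (Idx N) ℂ) E Q =
      MvPolynomial.aeval t P / MvPolynomial.aeval t Q := by
    rw [div_eq_div_iff hQE hne]
    exact hk.symm
  rw [this]
  have htm : ∀ p, t p ∈ K' N := fun p => T_mem _ _ _ _
    (fun i j => (K' N).algebraMap_mem _) ((K' N).algebraMap_mem _) (all_mem hN) p
  exact div_mem (aeval_mem _ _ htm _) (aeval_mem _ _ htm _)

lemma K_eq (hN : 1 ≤ N) : K N = K' N := by
  refine le_antisymm (K_le hN) ?_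
  unfold K'
  rw [IntermediateField.adjoin_le_iff]
  rintro _ ⟨⟨⟨l, s⟩, hp⟩, rfl⟩
  induction s using Sym2.ind with
  | _ i j => exact ss_mem hN l i j

lemma indep' (hN : 1 ≤ N) : AlgebraicIndependent ℂ (fun j : J N => sS (XE N) j.1) :=
  (indep hN).comp Sum.inl Sum.inl_injective

lemma card_J' (hN : 1 ≤ N) :
    Fintype.card (J N) = (N + 2).choose 2 * (N + 1) - 1 - N * (N + 2) := by
  have h := card_J hN
  rw [Fintype.card_sum, Fintype.card_prod, Fintype.card_prod, Sym2.card, Fintype.card_fin] at h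
  have e : (N + 1 + 1).choose 2 = (N + 2).choose 2 := rfl
  rw [e] at h
  have h2 : (N + 1) * (N + 2).choose 2 = (N + 2).choose 2 * (N + 1) := mul_comm _ _
  have h3 : (N + 1) * (N + 1) = 1 + N * (N + 2) := by ring
  omega

theorem main (N : ℕ) (hN : 1 ≤ N) : Nonempty (K N ≃ₐ[ℂ] FractionRing (MvPolynomial
    (Fin ((N + 2).choose 2 * (N + 1) - 1 - N * (N + 2))) ℂ)) := by
  have eJ : Fin ((N + 2).choose 2 * (N + 1) - 1 - N * (N + 2)) ≃ J N :=
    (finCongr (card_J' hN).symm).trans (Fintype.equivFin (J N)).symm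
  have h1 : AlgebraicIndependent ℂ ((fun j : J N => sS (XE N) j.1) ∘ eJ) :=
    (indep' hN).comp eJ eJ.injective
  have h2 : Set.range ((fun j : J N => sS (XE N) j.1) ∘ eJ) =
      Set.range (fun j : J N => sS (XE N) j.1) := eJ.surjective.range_comp _
  have h3 : K N = IntermediateField.adjoin ℂ (Set.range ((fun j : J N => sS (XE N) j.1) ∘ eJ)) := by
    rw [h2]; exact K_eq hN
  exact ⟨(IntermediateField.equivOfEq h3).trans h1.aevalEquivField.symm⟩

end H353R6.Quad
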